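import Pool.Agent.helper81.DI.SpecC

/-!
# Project di, module C16: congruence of central characters in a larger group
-/

set_option autoImplicit false

namespace Pool.Agent.DI

open Pool.Agent.helper58.DC

theorem C16_fin {H : Type} [Group H] [Fintype H] (g : H) [DecidablePred (fun x => IsConj g x)]
    (F : H → ℂ) :
    ∑ᶠ x ∈ conjugatesOf g, F x = ∑ x ∈ (Finset.univ : Finset H).filter (fun x => IsConj g x), F x := by
  have h : conjugatesOf g = ((Finset.univ : Finset H).filter (fun x => IsConj g x) : Set H) := by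
    ext x
    simp only [Finset.coe_filter, Finset.mem_univ, true_and]
    rfl
  rw [h, finsum_mem_coe_finset]

theorem C16_cls {K : Type} [Group K] [Fintype K] [Fintype (ConjClasses K)] (r : ConjClasses K → K)
    (hr : ∀ c, ConjClasses.mk (r c) = c) (P : K → Prop) [DecidablePred P]
    (hP : ∀ a b : K, IsConj a b → (P a ↔ P b)) (φ : K → ℂ) :
    (∑ k : K, if P k then φ k else 0) =
      ∑ c ∈ (Finset.univ : Finset (ConjClasses K)).filter (fun c => P (r c)),
        ∑ᶠ x ∈ conjugatesOf (r c), φ x := by
  classical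
  rw [Finset.sum_filter, ← Finset.sum_fiberwise Finset.univ (fun k : K => ConjClasses.mk k)]
  apply Finset.sum_congr rfl
  intro c _
  have h1 : ∀ k : K, ConjClasses.mk k = c → IsConj (r c) k := by
    intro k hk
    rw [← ConjClasses.mk_eq_mk_iff_isConj, hr, hk]
  by_cases hc : P (r c)
  · rw [if_pos hc, C16_fin]
    have h2 : (Finset.univ : Finset K).filter (fun k => IsConj (r c) k) =
        (Finset.univ : Finset K).filter (fun k => ConjClasses.mk k = c) := by
      ext k
      simp only [Finset.mem_filter, Finset.mem_univ, true_and]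
      constructor
      · intro h
        rw [← hr c]
        exact (ConjClasses.mk_eq_mk_iff_isConj.2 h).symm
      · exact h1 k
    rw [h2]
    apply Finset.sum_congr rfl
    intro k hk
    rw [if_pos]
    exact (hP _ _ (h1 k (Finset.mem_filter.1 hk).2)).1 hc
  · rw [if_neg hc]
    apply Finset.sum_eq_zero
    intro k hk
    rw [if_neg]
    intro hk2
    exact hc ((hP _ _ (h1 k (Finset.mem_filter.1 hk).2)).2 hk2)

open Classical in
theorem C16_om {K Γ : Type} [Group K] [Group Γ] [Fintype K] [Fintype Γ]
    [Fintype (ConjClasses K)] (r : ConjClasses K → K)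
    (hr : ∀ c, ConjClasses.mk (r c) = c) (i : K →* Γ) (hi : Function.Injective i) (φ : K → ℂ)
    (g : Γ) :
    omega (ext0 i φ) g =
      ∑ c ∈ (Finset.univ : Finset (ConjClasses K)).filter
        (fun c => IsConj g (i (r c))), omega φ (r c) := by
  have h1 : ∑ᶠ x ∈ conjugatesOf g, ext0 i φ x = ∑ k : K, if IsConj g (i k) then φ k else 0 := by
    rw [C16_fin, Finset.sum_filter]
    symm
    apply Finset.sum_of_injOn i hi.injOn (fun x _ => Finset.mem_coe.2 (Finset.mem_univ _))
    · intro x _ hx
      have h3 : ext0 i φ x = 0 := by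
        unfold ext0
        rw [Function.extend_apply']
        · rfl
        · rintro ⟨k, hk⟩
          exact hx ⟨k, Finset.mem_coe.2 (Finset.mem_univ _), hk⟩
      rw [h3]
      split_ifs <;> rfl
    · intro k _
      have h3 : ext0 i φ (i k) = φ k := hi.extend_apply φ 0 k
      rw [h3]
  have h4 : ext0 i φ 1 = φ 1 := by
    have h5 : ext0 i φ (i 1) = φ 1 := hi.extend_apply φ 0 1
    rwa [map_one] at h5
  have h6 : ∀ a b : K, IsConj a b → (IsConj g (i a) ↔ IsConj g (i b)) := by
    intro a b hab
    have h7 : IsConj (i a) (i b) := i.map_isConj hab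
    exact ⟨fun h => h.trans h7, fun h => h.trans h7.symm⟩
  unfold omega
  rw [h1, h4, ← Finset.sum_div]
  exact congrArg (fun t => t / φ 1) (C16_cls r hr (fun k => IsConj g (i k)) h6 φ)

theorem C16 (hC1 : C1_stmt) : C16_stmt := by
  classical
  intro K Γ _ _ _ _ p _ M hM hpM i hi ψ b hind g
  have := Fintype.ofFinite K
  have := Fintype.ofFinite Γ
  have := Fintype.ofFinite (ConjClasses K)
  choose r hr using fun c : ConjClasses K => ConjClasses.exists_rep c
  rw [C16_om r hr i hi ψ g, C16_om r hr i hi b g]
  refine (hC1 p M hM hpM).2.2.2.2.2.2.2.2.2 _ _ _ _ ?_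
  intro c _
  exact hind (r c)

end Pool.Agent.DI
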