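import Pool.Agent.helper81.DI.SpecD

/-!
# Project di, module D11: the relation
-/

set_option autoImplicit false

namespace Pool.Agent.DI

open Pool.Agent.helper58.DC

theorem D11_cmap_id {Γ : Type} [Group Γ] (C : Finset (Subgroup Γ)) :
    cmap (MonoidHom.id Γ) C = C := by
  classical
  ext P
  unfold cmap
  simp only [Finset.mem_image]
  constructor
  · rintro ⟨Q, hQ, rfl⟩
    rw [Subgroup.map_id]
    exact hQ
  · intro hP
    exact ⟨P, hP, Subgroup.map_id P⟩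

theorem D11_top (hA2 : A2_stmt) (hA4 : A4_stmt) (hA7 : A7_stmt) (hA8 : A8_stmt) (hD7 : D7_stmt)
    (E : Type) [Group E] [Finite E] (p : ℕ) [Fact p.Prime] (M : Ideal (integralClosure ℤ ℂ))
    (hM : M.IsMaximal) (hpM : (p : integralClosure ℤ ℂ) ∈ M) (hOrd : Ord p M)
    (G' : Subgroup E) (τ : E → ℂ) (d : ℤ) (hd : 1 ≤ d) :
    cSum p ⊤ ⊥ ⊤ (gfun p M G' τ d) = 0 := by
  obtain ⟨⟨P, hP⟩, hprop⟩ := hA2 E p (⊤ : Subgroup E)
  obtain ⟨h1, h2, h3, -, -⟩ := hprop P hP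
  by_cases hPb : P = ⊥
  · subst hPb
    have h7 := hA7 E p ⊤ ⊥ ⊤ (gfun p M G' τ d) hP (by
      have h0 : nz (⊤ : Subgroup E) = ⊤ := Subgroup.normalizer_eq_top_iff.2 inferInstance
      rw [h0]
      exact le_top)
    rw [← h7]
    have h8 := hA8 E E p (MonoidHom.id E) Function.injective_id ⊤ (gfun p M G' τ d)
    have hr : (MonoidHom.id E).range = ⊤ := MonoidHom.range_eq_top.2 Function.surjective_id
    rw [hr] at h8
    rw [← h8, ← hD7 E p M hM hpM hOrd hP G' τ d hd]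
    apply finsum_congr
    intro C
    apply finsum_congr
    intro _
    rw [D11_cmap_id, top_inf_eq]
  · refine hA4 E p ⊤ ⊥ ⊤ P (gfun p M G' τ d) h2 h1 h3 (le_trans inf_le_left h3) ?_
    intro h
    exact hPb (le_bot_iff.1 h)

theorem D11 (hA2 : A2_stmt) (hA4 : A4_stmt) (hA7 : A7_stmt) (hA8 : A8_stmt) (hA12 : A12_stmt)
    (hA14 : A14_stmt) (hB0 : B0_stmt) (hC1 : C1_stmt) (hC10 : C10_stmt) (hC15 : C15_stmt)
    (hC16 : C16_stmt) (hIM : IM_stmt) (hD0 : D0_stmt) (hD4 : D4_stmt) (hD7 : D7_stmt)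
    (hD8 : D8_stmt) (hD10 : D10_stmt) : D11_stmt := by
  intro G E A _ _ _ _ _ X p _ M hM hpM hA hOp hOrd hCyc χ hχ hst d hd
  have hd1 : 1 ≤ d := by
    have : (0 : ℤ) ≤ (padicValNat p (Nat.card A) : ℤ) := Int.natCast_nonneg _
    linarith
  have hcq : CycQ X.inc.range := hB0.2.2.2 G E A X hA
  have hcomm := hB0.1 E X.inc.range hcq
  have hnor : X.inc.range.Normal := hcq.1
  obtain ⟨τ, hτ⟩ : ∃ τ : E → ℂ, τ = omega (ext0 X.inc χ) := ⟨_, rfl⟩
  have e1 := D11_top hA2 hA4 hA7 hA8 hD7 E p M hM hpM hOrd X.inc.range τ d hd1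
  have e2 := hA12 E p X.inc.range (gfun p M X.inc.range τ d) hnor hcomm
    (fun Q hQ1 hQ2 hQ3 => hD10 G E A X p M hM hpM hA hCyc τ d hd Q hQ1 hQ2 hQ3)
  rw [e1] at e2
  have hOp' : IsOp p X.inc.range ⊥ := ((hA14 G E p X.inc X.inc_injective).2.1).1 hOp
  have e3 := hA7 E p X.inc.range ⊥ ⊤ (gfun p M X.inc.range τ d) hOp' (by
    have : nz X.inc.range = ⊤ := Subgroup.normalizer_eq_top_iff.2 hnor
    rw [this]
    exact le_top)
  rw [← e2] at e3
  have e4 := hA8 G E p X.inc X.inc_injective ⊤ (gfun p M X.inc.range τ d)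
  rw [e3] at e4
  obtain ⟨R, hR1, hR2⟩ := hC15 G M
  obtain ⟨ε, hε⟩ := hD8 G E A X
  have e5 := hD4 G E A E X X.inc.range ⊤ 1 ε p M hM hpM hcq τ d R hR1 hR2
  rw [hε, e4] at e5
  obtain ⟨b, ⟨hbR, hb1⟩, hb2⟩ := hR2 χ ⟨χ, hχ, (hIM G M χ χ χ).1⟩
  have hbχ : Induces M b χ := (hIM G M χ b b).2.1 hb1
  have hCov : Cov M X.inc.range τ (ext0 X.inc b) := by
    intro g _
    rw [hτ]
    exact (hC1 p M hM hpM).2.1 _ _ (hC16 G E p M hM hpM X.inc X.inc_injective χ b hb1 g)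
  rw [Finset.sum_eq_single b, if_pos hCov] at e5
  · have e6 : ∑ᶠ U : Subgroup A, ((1 * Nat.card U : ℕ) : ℤ) ^ 2 *
        ((Nat.card G : ℤ) * altSum X p M b (d - padicValNat p (1 * Nat.card U)) U) =
        (Nat.card G : ℤ) • ∑ᶠ U : Subgroup A, (Nat.card U : ℤ) ^ 2 *
          altSum X p M χ (d - padicValNat p (Nat.card U)) U := by
      rw [smul_finsum]
      apply finsum_congr
      intro U
      rw [one_mul, hD0 G E A X p M b χ hbχ, smul_eq_mul]
      ring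
    rw [e6, smul_eq_mul] at e5
    rcases mul_eq_zero.1 e5.symm with h | h
    · exfalso
      have h9 : Nat.card G ≠ 0 := Nat.card_pos.ne'
      exact h9 (by exact_mod_cast h)
    · exact h
  · intro c hcR hcb
    rw [if_neg]
    intro hcov
    apply hcb
    apply hb2
    refine ⟨hcR, ?_⟩
    apply (hIM G M c χ χ).2.1
    refine hC10 G E A X p M hM hpM c (hR1 c hcR) χ hχ hst ?_
    intro g hg
    have := hcov g hg
    rw [hτ] at this
    exact this
  · intro h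
    exact absurd hbR h

end Pool.Agent.DI
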